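import Mathlib
import Pool.Agent.Lib.MP_a24e3f_co.Defs
import Pool.Agent.Lib.MP_a24e3f_co.CC.Final2

namespace Pool.Agent.Results.MP_a24e3f_co.BlocksWithCores

open Pool.Agent.Lib.MP_a24e3f_co

/-- Let `G` be a finite or countably infinite graph. A block of `G` is a maximal set `B` of vertices
such that the graph induced on `B` is connected and stays connected when any one vertex is removed
(`CC.IsBlock`). Suppose that every block of `G` is contained in a set `A` of vertices (for example
`A = B`, or the vertex set of a connected component) such that the graph `H` induced on `A` is
`CC.Nice`, which means that
* `H` has maximum degree at most four, or
* `H` has a finite core (`CC.HasFiniteCore`): there is a finite (possibly empty) set `W` of vertices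
  which induces a connected graph of maximum degree at most four, and for some enumeration of the
  vertices of `H` every vertex outside `W` has at most three neighbours which are in `W` or come
  before it, or
* `H` has a core made of complete and complete bipartite graphs (`CC.HasCore`): there is a set `C`
  of vertices, finite or infinite, such that the graph induced on `C` is a disjoint union of
  complete graphs and complete bipartite graphs, and for some enumeration of the vertices of `H`
  every vertex outside `C` has at most three neighbours which are in `C` or come before it, or
* `H` becomes a complete graph when one vertex is removed (so this vertex is joined to an arbitrary
  set of vertices of a finite or countably infinite complete graph; for example the complete graph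
  on the natural numbers minus an edge), or
* `H` is itself a rational graph.

Then `G` is a rational graph. In particular a countable graph is rational as soon as all its blocks
are, so Q1 is a question on graphs without cut vertices. (This contains the earlier hand-in
MaxDegreeFour of helper57, whose part on maximum degree four, `M4.max_degree_four`, is used here:
there `A` is the vertex set of a component.) -/
theorem result (V : Type) [Countable V] (G : SimpleGraph V)
    (h : ∀ B : Set V, CC.IsBlock G B → ∃ A : Set V, B ⊆ A ∧ CC.Nice (G.induce A)) :
    ∃ f : V → Plane, IsRationalRep G f :=
  CC.of_nice_blocks G h

end Pool.Agent.Results.MP_a24e3f_co.BlocksWithCores
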