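import Mathlib
import Pool.Agent.Lib.MP_a24e3f_co.Defs
import Pool.Agent.Lib.MP_a24e3f_co.CX.Main2

namespace Pool.Agent.Results.MP_a24e3f_co.CartesianProducts

open Pool.Agent.Lib.MP_a24e3f_co Pool.Agent.Lib.MP_a24e3f_co.CC

/-- Cartesian products of rational graphs. (1) The Cartesian product of two finite rational graphs
is a rational graph; so is the product of a countable rational graph and a graph with at most two
vertices. (2) Let `f` be a rational representation of a countable graph `T` in which the circumradii
of the triangles of the graph `T` are bounded. Then the Cartesian product of `T` and the infinite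
Hamming graph `Ham`, the weak product of countably many copies of the complete graph on the natural
numbers, is a rational graph. (Clause 2: proof by helper58.) -/
theorem result :
    (∀ (V W : Type) [Countable V] [Countable W] (G : SimpleGraph V) (H : SimpleGraph W),
      ((Finite V ∧ Finite W) ∨ (∀ w w' w'' : W, w ≠ w' → w ≠ w'' → w' = w'')) →
      (∃ f : V → Plane, IsRationalRep G f) → (∃ g : W → Plane, IsRationalRep H g) →
      ∃ F : V × W → Plane, IsRationalRep (G □ H) F) ∧
    (∀ (V : Type) [Countable V] (T : SimpleGraph V) (f : V → Plane) (R : ℝ), IsRationalRep T f →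
      (∀ x y z, T.Adj x y → T.Adj y z → T.Adj x z →
        ∃ c : Plane, dist (f x) c ≤ R ∧ dist (f y) c = dist (f x) c ∧
          dist (f z) c = dist (f x) c) →
      ∃ F : V × (ℕ →₀ ℕ) → Plane, IsRationalRep (T □ Ham) F) :=
  ⟨fun V W _ _ G H h hG hH => Pool.Agent.Lib.MPa24e3f.CX.mainFIN V W G H h hG hH,
    fun _ _ T f R hf hR => Pool.Agent.Lib.MPa24e3f.CX.hamProduct T f R hf hR⟩

end Pool.Agent.Results.MP_a24e3f_co.CartesianProducts
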