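import Mathlib
import Pool.Agent.Lib.MP_a24e3f_co.Defs
import Pool.Agent.Lib.MP_a24e3f_co.CR.MainA

namespace Pool.Agent.Results.MP_a24e3f_co.CircleGraphs

open Pool.Agent.Lib.MP_a24e3f_co Pool.Agent.Lib.MPa24e3f.CR

/-- A finite or countably infinite graph has a rational representation all of whose points lie on
one circle, the square of whose radius is rational, if and only if each of its connected components
is isomorphic to an induced subgraph of the universal graph `Circ`. If the graph contains a
triangle, the same holds for circles of arbitrary radius. -/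
theorem result (V : Type) [Countable V] (G : SimpleGraph V) :
    ((∃ f : V → Plane, IsRationalRep G f ∧ ∃ (z : Plane) (ρ : ℝ), (∃ a : ℚ, ρ ^ 2 = (a : ℝ)) ∧
        ∀ v, dist (f v) z = ρ) ↔
      ∀ c : G.ConnectedComponent, Nonempty (G.induce c.supp ↪g Circ)) ∧
    ((∃ x y w, G.Adj x y ∧ G.Adj y w ∧ G.Adj x w) →
      ((∃ f : V → Plane, IsRationalRep G f ∧ ∃ (z : Plane) (ρ : ℝ), ∀ v, dist (f v) z = ρ) ↔
        ∀ c : G.ConnectedComponent, Nonempty (G.induce c.supp ↪g Circ))) :=
  mainFNA V G

end Pool.Agent.Results.MP_a24e3f_co.CircleGraphs
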