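import Mathlib
import Pool.Agent.Lib.MP_a24e3f_co.Defs
import Pool.Agent.Lib.MP_a24e3f_co.Final
import Pool.Agent.Lib.MP_a24e3f_co.CE.Main

namespace Pool.Agent.Results.MP_a24e3f_co.CoreExtension

open Pool.Agent.Lib.MP_a24e3f_co

/-- Let `e` enumerate the vertices of a countable graph `G`, let `W` be a finite set of vertices and
`f₀` any rational representation of `G[W]`. Let `k ≤ 2`, or `k ≤ 3` if all coordinates of `f₀` are
in `ℚ × √D ℚ` for some positive rational `D`. If every vertex outside `W` has at most `k` neighbours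
which are in `W` or come earlier in the enumeration, then `f₀` extends to a rational representation
of `G`. -/
theorem result {V : Type} (G : SimpleGraph V) (e : V → ℕ) (he : Function.Injective e) (W : Set V)
    (hW : W.Finite) (f₀ : W → Plane) (h₀ : IsRationalRep (G.induce W) f₀) (k : ℕ)
    (hk : k ≤ 2 ∨ (k ≤ 3 ∧ ∃ D : ℚ, 0 < D ∧
      ∀ w, ∃ x y : ℚ, f₀ w 0 = (x : ℝ) ∧ f₀ w 1 = (y : ℝ) * √(D : ℝ)))
    (hdeg : ∀ v, v ∉ W → {u | G.Adj u v ∧ (u ∈ W ∨ e u < e v)}.encard ≤ k) :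
    ∃ f : V → Plane, IsRationalRep G f ∧ ∀ w : W, f w = f₀ w := by
  rcases hk with hk | ⟨hk, D, hD, hc⟩
  · obtain ⟨f, h1, h2⟩ := Pool.Agent.Lib.MPa24e3f.CE.mainBLD V G e W f₀ he hW h₀
      (fun v hv => (hdeg v hv).trans (by exact_mod_cast hk))
    exact ⟨f, h2, h1⟩
  · exact main G e he W hW D hD f₀ h₀ hc (fun v hv => (hdeg v hv).trans (by exact_mod_cast hk))

end Pool.Agent.Results.MP_a24e3f_co.CoreExtension
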